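import Pool.Agent.H.MP_19b229_an.B

set_option autoImplicit false

namespace Pool.Agent.Results.MP_19b229_an.Yes

open MeasureTheory Filter Topology Pool.Agent.H.MP_19b229_an
open scoped ENNReal NNReal

theorem result (N : ℕ) (hN : 2 ≤ N) (Ω : Set (E N)) (ho : IsOpen Ω) (hb : Bornology.IsBounded Ω)
    (β K : ℝ≥0) (h0 : 0 < β) (c : ℝ) (hc : c ≠ 0) (μ : SignedMeasure (E N))
    (hμ : μ.totalVariation Ωᶜ = 0) (u : E N → ℝ) (hu : HolderOnWith K β u Ω)
    (he : ∀ᵐ x ∂volume.restrict Ω, pot c μ x = u x) :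
    (∃ C : ℝ≥0, μ.totalVariation ≤ (C : ℝ≥0∞) • μH[N - 2 + β]) ∧
    ∀ a : ℝ≥0, 0 < a → ∃ m : ℕ → SignedMeasure (E N), (∀ n, (m n).totalVariation Ωᶜ = 0) ∧
      (∀ n : ℕ, (m n).totalVariation ≤ (n : ℝ≥0∞) • (a : ℝ≥0∞) • μH[N - 2 + β]) ∧
      Tendsto (fun n => (m n - μ).totalVariation Set.univ) atTop (𝓝 0) := by
  obtain ⟨C, hC⟩ := main hN ho hb h0 hc μ hμ hu he
  refine ⟨⟨C, hC⟩, fun a ha => ⟨fun n => if C / a ≤ n then μ else 0, fun n => ?_, fun n => ?_, ?_⟩⟩
  · beta_reduce; split_ifs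
    · exact hμ
    · simp [SignedMeasure.totalVariation_zero]
  · beta_reduce; split_ifs with h
    · refine hC.trans fun s => ?_
      rw [smul_smul, Measure.smul_apply, Measure.smul_apply, smul_eq_mul, smul_eq_mul]
      gcongr
      exact_mod_cast (div_le_iff₀ ha).1 h
    · rw [SignedMeasure.totalVariation_zero]; exact bot_le
  · refine tendsto_const_nhds.congr' ?_
    filter_upwards [tendsto_natCast_atTop_atTop.eventually_ge_atTop (C / a)] with n hn
    simp [hn, SignedMeasure.totalVariation_zero]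

end Pool.Agent.Results.MP_19b229_an.Yes
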